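import Mathlib

/-! Confluent form of total positivity: if all `n × n` minors of `f (x i - y j)` with increasing
`x`, `y` are nonnegative then, up to the sign of the order reversal, so is the Hankel determinant
of derivatives. -/

namespace R242PF

open Matrix Filter Topology fwdDiff

/-- iterated difference as a derivative at an intermediate point. -/
theorem fwdDiff_iter_mvt : ∀ (k : ℕ) (F : ℕ → ℝ → ℝ)
    (_ : ∀ m x, HasDerivAt (F m) (F (m + 1) x) x) (m : ℕ) (x h : ℝ), 0 < h →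
    ∃ ξ ∈ Set.Icc x (x + k * h), (fwdDiff h)^[k] (F m) x = h ^ k * F (m + k) ξ := by
  intro k
  induction k with
  | zero =>
    intro F hF m x h hh
    exact ⟨x, by simp, by simp⟩
  | succ k ih =>
    intro F hF m x h hh
    obtain ⟨ξ', hξ', he⟩ := ih (fun m => fwdDiff h (F m)) (by
      intro m x
      have h1 : HasDerivAt (fun y => F m (y + h)) (F (m + 1) (x + h)) x := by
        simpa using (hF m (x + h)).comp_add_const x h
      exact h1.sub (hF m x)) m x h hh
    obtain ⟨ξ, hξ, hd⟩ := exists_hasDerivAt_eq_slope (F (m + k)) (F (m + k + 1))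
      (show ξ' < ξ' + h by linarith)
      (fun y _ => (hF (m + k) y).continuousAt.continuousWithinAt)
      (fun y _ => hF (m + k) y)
    refine ⟨ξ, ?_, ?_⟩
    · simp only [Set.mem_Icc, Set.mem_Ioo, Nat.cast_add, Nat.cast_one] at *
      constructor
      · linarith
      · nlinarith
    · rw [Function.iterate_succ_apply, he]
      have h2 : fwdDiff h (F (m + k)) ξ' = h * F (m + (k + 1)) ξ := by
        unfold fwdDiff
        rw [← add_assoc, hd, show ξ' + h - ξ' = h by ring]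
        field_simp
      rw [h2, pow_succ]
      ring

/-- The unitriangular matrix of the binomial transform. -/
def bt (n : ℕ) : Matrix (Fin n) (Fin n) ℝ :=
  Matrix.of fun i k => (-1 : ℝ) ^ ((i : ℕ) - (k : ℕ)) * ((i : ℕ).choose (k : ℕ) : ℝ)

theorem bt_det (n : ℕ) : (bt n).det = 1 := by
  rw [Matrix.det_of_isLowerTriangular]
  · simp [bt]
  · intro i j hij
    have : (i : ℕ) < (j : ℕ) := by simpa using hij
    simp [bt, Nat.choose_eq_zero_of_lt this]

theorem bt_sum {n : ℕ} (f : ℝ → ℝ) (h x : ℝ) (i : Fin n) :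
    ∑ k : Fin n, bt n i k * f (x + (k : ℕ) * h) = (fwdDiff h)^[(i : ℕ)] f x := by
  rw [fwdDiff_iter_eq_sum_shift]
  have h0 : ∑ k : Fin n, bt n i k * f (x + (k : ℕ) * h) =
      ∑ k ∈ Finset.range n, ((-1 : ℝ) ^ ((i : ℕ) - k) * ((i : ℕ).choose k : ℝ)) *
        f (x + (k : ℕ) * h) :=
    Fin.sum_univ_eq_sum_range (fun k => ((-1 : ℝ) ^ ((i : ℕ) - k) * ((i : ℕ).choose k : ℝ)) *
      f (x + (k : ℕ) * h)) n
  rw [h0]
  have hi : (i : ℕ) + 1 ≤ n := i.2
  rw [← Finset.sum_subset (Finset.range_mono hi)]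
  · refine Finset.sum_congr rfl fun k _ => ?_
    simp
  · intro k _ hk
    have : (i : ℕ) < k := by simpa using hk
    rw [Nat.choose_eq_zero_of_lt this]
    simp

theorem hankel_det {n : ℕ} (f : ℝ → ℝ) (h x : ℝ) :
    (Matrix.of fun i j : Fin n => f (x + ((i : ℕ) + (j : ℕ) : ℕ) * h)).det =
      (Matrix.of fun i j : Fin n => (fwdDiff h)^[(i : ℕ) + (j : ℕ)] f x).det := by
  have key : (Matrix.of fun i j : Fin n => (fwdDiff h)^[(i : ℕ) + (j : ℕ)] f x) =
      bt n * (Matrix.of fun i j : Fin n => f (x + ((i : ℕ) + (j : ℕ) : ℕ) * h)) * (bt n)ᵀ := by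
    ext i j
    rw [Matrix.mul_apply]
    have h1 : ∀ l : Fin n, (bt n * (Matrix.of fun i j : Fin n =>
        f (x + ((i : ℕ) + (j : ℕ) : ℕ) * h))) i l = (fwdDiff h)^[(i : ℕ)] f (x + (l : ℕ) * h) := by
      intro l
      rw [Matrix.mul_apply, ← bt_sum f h (x + (l : ℕ) * h) i]
      refine Finset.sum_congr rfl fun k _ => ?_
      simp only [Matrix.of_apply]
      congr 2
      push_cast
      ring
    simp_rw [h1, Matrix.transpose_apply]
    have h2 : ∀ l : Fin n, (fwdDiff h)^[(i : ℕ)] f (x + (l : ℕ) * h) * bt n j l =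
        bt n j l * (fwdDiff h)^[(i : ℕ)] f (x + (l : ℕ) * h) := fun l => mul_comm _ _
    simp_rw [h2]
    rw [bt_sum ((fwdDiff h)^[(i : ℕ)] f) h x j]
    simp only [Matrix.of_apply]
    rw [add_comm (i : ℕ) (j : ℕ), Function.iterate_add_apply]
  rw [key, Matrix.det_mul, Matrix.det_mul, Matrix.det_transpose, bt_det]
  ring

/-- The reversal of the columns. -/
theorem rev_det {n : ℕ} (A : Matrix (Fin n) (Fin n) ℝ) :
    (Matrix.of fun i j => A i (Fin.rev j)).det =
      (Equiv.Perm.sign (Fin.revPerm : Equiv.Perm (Fin n)) : ℝ) * A.det := by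
  have := Matrix.det_permute' (Fin.revPerm : Equiv.Perm (Fin n)) A
  simpa [Matrix.submatrix] using this

theorem conf_nonneg {n : ℕ} (F : ℕ → ℝ → ℝ) (hF : ∀ m x, HasDerivAt (F m) (F (m + 1) x) x)
    (hpos : ∀ x y : Fin n → ℝ, StrictMono x → StrictMono y →
      0 ≤ (Matrix.of fun i j => F 0 (x i - y j)).det) (z : ℝ) :
    0 ≤ (Equiv.Perm.sign (Fin.revPerm : Equiv.Perm (Fin n)) : ℝ) *
      (Matrix.of fun i j : Fin n => F ((i : ℕ) + (j : ℕ)) z).det := by
  -- the statement for every `h > 0`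
  have h1 : ∀ h : ℝ, 0 < h → ∀ x : ℝ, 0 ≤ (Equiv.Perm.sign (Fin.revPerm : Equiv.Perm (Fin n)) : ℝ) *
      (Matrix.of fun i j : Fin n => F 0 (x + ((i : ℕ) + (j : ℕ) : ℕ) * h)).det := by
    intro h hh x
    have h2 := hpos (fun i => x + ((i : ℕ) + (n : ℝ) - 1) * h) (fun j => ((j : ℕ) : ℝ) * h)
      (by
        intro a b hab
        have : ((a : ℕ) : ℝ) < ((b : ℕ) : ℝ) := by exact_mod_cast hab
        simp only
        nlinarith)
      (by
        intro a b hab
        have : ((a : ℕ) : ℝ) < ((b : ℕ) : ℝ) := by exact_mod_cast hab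
        simp only
        nlinarith)
    have h3 : (Matrix.of fun i j : Fin n =>
        F 0 (x + ((i : ℕ) + (n : ℝ) - 1) * h - ((j : ℕ) : ℝ) * h)) =
        Matrix.of fun i j : Fin n => (Matrix.of fun i j : Fin n =>
          F 0 (x + ((i : ℕ) + (j : ℕ) : ℕ) * h)) i (Fin.rev j) := by
      ext i j
      simp only [Matrix.of_apply]
      congr 1
      have : ((Fin.rev j : Fin n) : ℕ) + (j : ℕ) + 1 = n := by
        rw [Fin.val_rev]
        omega
      have h4 : (n : ℝ) = ((Fin.rev j : Fin n) : ℕ) + (j : ℕ) + 1 := by exact_mod_cast this.symm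
      rw [h4]
      push_cast
      ring
    rw [h3, rev_det] at h2
    exact h2
  -- intermediate points
  choose ξ hξ hξe using fun (h : Set.Ioi (0 : ℝ)) (k : ℕ) =>
    fwdDiff_iter_mvt k F hF 0 z h.1 h.2
  let Ξ : ℝ → ℕ → ℝ := fun h k => if hh : 0 < h then ξ ⟨h, hh⟩ k else z
  have hΞ : ∀ k, Tendsto (fun h => Ξ h k) (𝓝[>] 0) (𝓝 z) := by
    intro k
    have hub : Tendsto (fun h : ℝ => z + k * h) (𝓝[>] 0) (𝓝 z) := by
      have : Tendsto (fun h : ℝ => z + k * h) (𝓝 0) (𝓝 (z + k * 0)) := by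
        exact Continuous.tendsto (by fun_prop) 0
      simpa using this.mono_left nhdsWithin_le_nhds
    refine tendsto_of_tendsto_of_tendsto_of_le_of_le' tendsto_const_nhds hub ?_ ?_
    · filter_upwards [self_mem_nhdsWithin] with h hh
      have hh' : 0 < h := hh
      simp only [Ξ, dif_pos hh']
      exact (hξ ⟨h, hh'⟩ k).1
    · filter_upwards [self_mem_nhdsWithin] with h hh
      have hh' : 0 < h := hh
      simp only [Ξ, dif_pos hh']
      exact (hξ ⟨h, hh'⟩ k).2
  have h5 : ∀ h : ℝ, 0 < h → 0 ≤ (Equiv.Perm.sign (Fin.revPerm : Equiv.Perm (Fin n)) : ℝ) *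
      (Matrix.of fun i j : Fin n => F ((i : ℕ) + (j : ℕ)) (Ξ h ((i : ℕ) + (j : ℕ)))).det := by
    intro h hh
    have h6 := h1 h hh z
    rw [hankel_det] at h6
    have h7 : (Matrix.of fun i j : Fin n => (fwdDiff h)^[(i : ℕ) + (j : ℕ)] (F 0) z) =
        Matrix.of fun i j : Fin n => h ^ (i : ℕ) * (Matrix.of fun i j : Fin n => h ^ (j : ℕ) *
          (Matrix.of fun i j : Fin n =>
            F ((i : ℕ) + (j : ℕ)) (Ξ h ((i : ℕ) + (j : ℕ)))) i j) i j := by
      ext i j
      simp only [Matrix.of_apply]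
      have := hξe ⟨h, hh⟩ ((i : ℕ) + (j : ℕ))
      simp only [zero_add] at this
      rw [this]
      simp only [Ξ, dif_pos hh]
      rw [pow_add]
      ring
    rw [h7, Matrix.det_mul_column, Matrix.det_mul_row] at h6
    have h8 : 0 < ∏ i : Fin n, h ^ (i : ℕ) := Finset.prod_pos fun i _ => pow_pos hh _
    have h9 : 0 ≤ (∏ i : Fin n, h ^ (i : ℕ)) * ((∏ i : Fin n, h ^ (i : ℕ)) *
      ((Equiv.Perm.sign (Fin.revPerm : Equiv.Perm (Fin n)) : ℝ) *
      (Matrix.of fun i j : Fin n =>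
        F ((i : ℕ) + (j : ℕ)) (Ξ h ((i : ℕ) + (j : ℕ)))).det)) := by
      calc (0 : ℝ) ≤ _ := h6
        _ = _ := by ring
    exact nonneg_of_mul_nonneg_right (nonneg_of_mul_nonneg_right h9 h8) h8
  have h10 : Tendsto (fun h => (Equiv.Perm.sign (Fin.revPerm : Equiv.Perm (Fin n)) : ℝ) *
      (Matrix.of fun i j : Fin n => F ((i : ℕ) + (j : ℕ)) (Ξ h ((i : ℕ) + (j : ℕ)))).det)
      (𝓝[>] 0) (𝓝 ((Equiv.Perm.sign (Fin.revPerm : Equiv.Perm (Fin n)) : ℝ) *
      (Matrix.of fun i j : Fin n => F ((i : ℕ) + (j : ℕ)) z).det)) := by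
    refine Tendsto.const_mul _ ?_
    have hm : Tendsto (fun h => (Matrix.of fun i j : Fin n =>
        F ((i : ℕ) + (j : ℕ)) (Ξ h ((i : ℕ) + (j : ℕ))))) (𝓝[>] 0)
        (𝓝 (Matrix.of fun i j : Fin n => F ((i : ℕ) + (j : ℕ)) z)) := by
      refine tendsto_pi_nhds.2 fun i => tendsto_pi_nhds.2 fun j => ?_
      exact ((hF _ z).continuousAt.tendsto).comp (hΞ _)
    exact ((continuous_id.matrix_det).tendsto _).comp hm
  refine ge_of_tendsto h10 ?_
  filter_upwards [self_mem_nhdsWithin] with h hh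
  exact h5 h hh

end R242PF
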