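import Mathlib
import Pool.Agent.R242.PF.Num

/-! Derivatives of the (tilted) Gaussian half-factor at the point `e^z = 10/3`. -/

namespace R242PF

open Filter Topology MeasureTheory

/-- The integral `∫_0^w log(1+t)/t dt`. -/
noncomputable def J (w : ℝ) : ℝ := ∫ t in (0 : ℝ)..w, Real.log (1 + t) / t

theorem ii (w : ℝ) (hw : 0 < w) :
    IntervalIntegrable (fun t : ℝ => Real.log (1 + t) / t) volume 0 w := by
  refine (intervalIntegrable_const (c := (1 : ℝ))).mono_fun ?_ ?_
  · exact (by fun_prop : Measurable fun t : ℝ => Real.log (1 + t) / t).aestronglyMeasurable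
  · refine (ae_restrict_iff' measurableSet_uIoc).2 (Eventually.of_forall fun x hx => ?_)
    rw [Set.uIoc_of_le hw.le] at hx
    have hx0 : 0 < x := hx.1
    have h1 : 0 ≤ Real.log (1 + x) := Real.log_nonneg (by linarith)
    have h2 : Real.log (1 + x) ≤ x := by
      have := Real.log_le_sub_one_of_pos (show 0 < 1 + x by linarith)
      linarith
    show ‖Real.log (1 + x) / x‖ ≤ ‖(1 : ℝ)‖
    rw [Real.norm_of_nonneg (div_nonneg h1 hx0.le), norm_one, div_le_one hx0]
    exact h2

theorem J_deriv {w : ℝ} (hw : 0 < w) : HasDerivAt J (Real.log (1 + w) / w) w := by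
  refine intervalIntegral.integral_hasDerivAt_right (ii w hw) ?_ ?_
  · exact (by fun_prop : Measurable fun t : ℝ => Real.log (1 + t) / t).stronglyMeasurable.stronglyMeasurableAtFilter
  · refine ContinuousAt.div ?_ continuousAt_id hw.ne'
    exact ContinuousAt.log (by fun_prop) (by linarith : (0 : ℝ) < 1 + w).ne'

theorem psi_deriv (z : ℝ) :
    HasDerivAt (fun z => z - J (Real.exp z)) (1 - Real.log (1 + Real.exp z)) z := by
  have h := (J_deriv (Real.exp_pos z)).comp z (Real.hasDerivAt_exp z)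
  have h2 := (hasDerivAt_id z).sub h
  have h3 : Real.log (1 + Real.exp z) / Real.exp z * Real.exp z = Real.log (1 + Real.exp z) :=
    div_mul_cancel₀ _ (Real.exp_pos z).ne'
  rw [h3] at h2
  exact h2

theorem ne1 (z : ℝ) : (1 + Real.exp z) ≠ 0 := by
  have := Real.exp_pos z
  positivity

theorem log_contDiff : ContDiff ℝ ⊤ (fun z : ℝ => Real.log (1 + Real.exp z)) :=
  (contDiff_const.add Real.contDiff_exp).log ne1

theorem psi_contDiff : ContDiff ℝ (⊤ : ℕ∞) (fun z => z - J (Real.exp z)) := by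
  rw [contDiff_infty_iff_deriv]
  refine ⟨fun z => (psi_deriv z).differentiableAt, ?_⟩
  have : deriv (fun z => z - J (Real.exp z)) = fun z => 1 - Real.log (1 + Real.exp z) := by
    ext z
    exact (psi_deriv z).deriv
  rw [this]
  exact (contDiff_const.sub log_contDiff).of_le le_top

/-- `σ(z) = e^z/(1+e^z)`. -/
noncomputable def sg (z : ℝ) : ℝ := Real.exp z / (1 + Real.exp z)

theorem sg_deriv (z : ℝ) : HasDerivAt sg (sg z - sg z ^ 2) z := by
  have h := (Real.hasDerivAt_exp z).div ((Real.hasDerivAt_exp z).const_add 1) (ne1 z)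
  have h2 : (Real.exp z * (1 + Real.exp z) - Real.exp z * Real.exp z) / (1 + Real.exp z) ^ 2 =
      sg z - sg z ^ 2 := by
    unfold sg
    have := ne1 z
    field_simp
  rw [h2] at h
  exact h

theorem sg_contDiff : ContDiff ℝ (⊤ : ℕ∞) sg :=
  (Real.contDiff_exp.div (contDiff_const.add Real.contDiff_exp) ne1).of_le le_top

theorem sg_pow_deriv (b : ℕ) (z : ℝ) :
    HasDerivAt (fun z => sg z ^ b) ((b : ℝ) * sg z ^ b - (b : ℝ) * sg z ^ (b + 1)) z := by
  rcases b with _ | b
  · simpa using hasDerivAt_const z (1 : ℝ)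
  · have h : HasDerivAt (fun z => sg z ^ (b + 1))
        (((b + 1 : ℕ) : ℝ) * sg z ^ b * (sg z - sg z ^ 2)) z := (sg_deriv z).pow (b + 1)
    have h2 : ((b + 1 : ℕ) : ℝ) * sg z ^ b * (sg z - sg z ^ 2) =
        (((b + 1 : ℕ) : ℝ) * sg z ^ (b + 1) - ((b + 1 : ℕ) : ℝ) * sg z ^ (b + 1 + 1)) := by ring
    rw [h2] at h
    exact h

/-- the base point. -/
noncomputable def z0 : ℝ := Real.log (10 / 3)

theorem exp_z0 : Real.exp z0 = 10 / 3 := Real.exp_log (by norm_num)

theorem sg_z0 : sg z0 = 10 / 13 := by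
  unfold sg
  rw [exp_z0]
  norm_num

theorem sg_iter : ∀ (k b : ℕ),
    iteratedDeriv k (fun z => sg z ^ b) z0 = (tab k b : ℝ) / 13 ^ (k + b) := by
  intro k
  induction k with
  | zero =>
    intro b
    simp [sg_z0, tab, div_pow]
  | succ k ih =>
    intro b
    rw [iteratedDeriv_succ']
    have h1 : deriv (fun z => sg z ^ b) =
        fun z => (b : ℝ) * sg z ^ b - (b : ℝ) * sg z ^ (b + 1) := by
      ext z
      exact (sg_pow_deriv b z).deriv
    have hc : ∀ b : ℕ, ContDiffAt ℝ k (fun z => (b : ℝ) * sg z ^ b) z0 := fun b =>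
      (contDiffAt_const.mul ((sg_contDiff.contDiffAt.of_le (by exact_mod_cast le_top)).pow b))
    have hc' : ContDiffAt ℝ k (fun z => (b : ℝ) * sg z ^ (b + 1)) z0 :=
      (contDiffAt_const.mul ((sg_contDiff.contDiffAt.of_le (by exact_mod_cast le_top)).pow (b + 1)))
    rw [h1, iteratedDeriv_fun_sub (hc b) hc', iteratedDeriv_const_mul_field,
      iteratedDeriv_const_mul_field, ih, ih]
    simp only [tab]
    push_cast
    rw [show k + 1 + b = k + b + 1 by ring, show k + (b + 1) = k + b + 1 by ring, pow_succ]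
    field_simp

/-- the tilt exponent derivative `v(z) = log(13/3) - log(1+e^z)`. -/
noncomputable def vv (z : ℝ) : ℝ := Real.log (13 / 3) - Real.log (1 + Real.exp z)

theorem vv_z0 : vv z0 = 0 := by
  unfold vv
  rw [exp_z0]
  norm_num

theorem vv_deriv (z : ℝ) : HasDerivAt vv (-sg z) z := by
  have h := ((Real.hasDerivAt_exp z).const_add 1).log (ne1 z)
  exact h.const_sub _

theorem vv_contDiff : ContDiff ℝ (⊤ : ℕ∞) vv :=
  (contDiff_const.sub log_contDiff).of_le le_top

theorem vv_iter (k : ℕ) : iteratedDeriv (k + 1) vv z0 = -((tab k 1 : ℝ) / 13 ^ (k + 1)) := by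
  rw [iteratedDeriv_succ']
  have h1 : deriv vv = fun z => -(sg z ^ 1) := by
    ext z
    rw [(vv_deriv z).deriv]
    simp
  rw [h1, iteratedDeriv_fun_neg, sg_iter]

/-- the tilted function. -/
noncomputable def ff (c : ℝ) (z : ℝ) : ℝ :=
  c * Real.exp ((z - J (Real.exp z)) + (Real.log (13 / 3) - 1) * z)

theorem ff_deriv (c z : ℝ) : HasDerivAt (ff c) (ff c z * vv z) z := by
  have h := ((psi_deriv z).add ((hasDerivAt_id z).const_mul (Real.log (13 / 3) - 1))).exp.const_mul c
  have h2 : HasDerivAt (ff c) (c * (Real.exp ((z - J (Real.exp z)) + (Real.log (13 / 3) - 1) * z) *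
      (1 - Real.log (1 + Real.exp z) + (Real.log (13 / 3) - 1) * 1))) z := h
  have h3 : ff c z * vv z = c * (Real.exp ((z - J (Real.exp z)) + (Real.log (13 / 3) - 1) * z) *
      (1 - Real.log (1 + Real.exp z) + (Real.log (13 / 3) - 1) * 1)) := by
    unfold ff vv
    ring
  rw [h3]
  exact h2

theorem ff_contDiff (c : ℝ) : ContDiff ℝ (⊤ : ℕ∞) (ff c) := by
  unfold ff
  exact contDiff_const.mul ((psi_contDiff.add (contDiff_const.mul contDiff_id)).exp)

theorem ff_iter (c : ℝ) : ∀ n ≤ 22,
    iteratedDeriv n (ff c) z0 = ff c z0 * ((ml.getD n 0 : ℤ) : ℝ) / 13 ^ n := by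
  intro n
  induction n using Nat.strong_induction_on with
  | _ n ih =>
    intro hn
    rcases n with _ | n
    · simp [ml]
    · rw [iteratedDeriv_succ']
      have h1 : deriv (ff c) = fun z => ff c z * vv z := by
        ext z
        exact (ff_deriv c z).deriv
      rw [h1, iteratedDeriv_fun_mul ((ff_contDiff c).contDiffAt.of_le (by exact_mod_cast le_top))
        (vv_contDiff.contDiffAt.of_le (by exact_mod_cast le_top)), Finset.sum_range_succ]
      rw [Nat.sub_self, iteratedDeriv_zero, vv_z0, mul_zero, add_zero]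
      have h2 : ∀ i ∈ Finset.range n, (n.choose i : ℝ) * iteratedDeriv i (ff c) z0 *
          iteratedDeriv (n - i) vv z0 = -(ff c z0 / 13 ^ n) *
            ((((n.choose i : ℤ) * ml.getD i 0 * tl.getD (n - 1 - i) 0 : ℤ)) : ℝ) := by
        intro i hi
        have hi' : i < n := Finset.mem_range.1 hi
        obtain ⟨j, rfl⟩ : ∃ j, n = i + j + 1 := ⟨n - i - 1, by omega⟩
        rw [ih i (by omega) (by omega)]
        rw [show i + j + 1 - i = j + 1 by omega, vv_iter, tab_val j (by omega)]
        rw [show i + j + 1 - 1 - i = j by omega]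
        push_cast
        rw [show i + j + 1 = i + (j + 1) by ring, pow_add (13 : ℝ) i (j + 1)]
        field_simp
      rw [Finset.sum_congr rfl h2, ← Finset.mul_sum, ← Int.cast_sum]
      have h3 : (∑ i ∈ Finset.range n, ((n.choose i : ℤ) * ml.getD i 0 * tl.getD (n - 1 - i) 0)) =
          ((List.range n).map fun i => (n.choose i : ℤ) * ml.getD i 0 * tl.getD (n - 1 - i) 0).sum := by
        rw [Finset.sum_eq_multiset_sum]
        rfl
      rw [h3, ml_rec n (by omega)]
      push_cast
      rw [pow_succ]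
      field_simp

end R242PF
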